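import Pool.Agent.N399.PN.Main

set_option autoImplicit false

/-!
# Finitely generated normal subgroups of parafree groups (MP_f3dc04_al, full answer: yes)

A non-trivial normal subgroup of infinite index of a parafree group is not finitely generated.  The
parafree group is arbitrary, of finite or infinite rank; it is not assumed to be finitely generated.
The same holds for commensurated subgroups.

Proof (plan and statements of the pieces: starting library `R684/PN`).  Let `N` be a finitely generated
commensurated subgroup with `k` generators, `1 ≠ a ∈ N`, of infinite index in the parafree group `P`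
with basis `X`.  If `X` has at most one element then `P` is cyclic.  Let `x₁ ≠ x₂` be in `X`.  For each
`m` let `Γ` be the subgroup of `P` which is generated by `N`, the basis elements `b x₁, b x₂` and
representatives of `m` cosets of `N`.  Consider the space `U` of the cocycles of `Γ` with values in
`ℓ²(Γ)` which vanish at `a`, as a subspace of `ℓ²(Γ × S)`, `S` the set of generators.
* `dim_Γ U ≥ 1`: `P` is residually a finite `2`-group (theorem of Magnus and Witt; `N399/PN/Res`).  The
  cocycles of `P` with values in `ℂ[G]`, `G` a finite `2`-group quotient, can be prescribed at `b x₁` and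
  `b x₂`, since `(ℤ/2^j)[G] ⋊ G` is nilpotent (`N399/PN/Pf`, `N399/PN/Der`).  So the corresponding
  space for `G` has dimension at least `2 |G| - |G|` (`N399/PN/Fin`), and one passes to the limit
  (`R372/VG/LIMG`).
* `m · dim_Γ U ≤ k`: the restriction of a cocycle in `U` to `N` and to the values in `ℓ²(N)` determines
  the cocycle (`R684/PN/Injc`), so `U`, which contains `m` cosets' worth of `dim_Γ U`, embeds in
  `ℓ²(N)^k` (`N399/PN/Cmp`).
-/

namespace Pool.Agent.Results.MP_f3dc04_al.FinitelyGeneratedNormal

/-- `gam G n` is the term `γ_{n+1}(G)` of the lower central series of `G`: `gam G 0 = G` and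
`gam G (n+1) = [gam G n, G]`. -/
abbrev gam (G : Type) [Group G] (n : ℕ) : Subgroup G := (⊤ : Subgroup G).lowerCentralSeries n

/-- `P` is parafree: it is residually nilpotent, and it has the same lower central quotients as some
free group (on a set `X` of any cardinality). -/
def Parafree (P : Type) [Group P] : Prop :=
  (⨅ n, gam P n) = ⊥ ∧
    ∃ X : Type, ∀ n, Nonempty (P ⧸ gam P n ≃* FreeGroup X ⧸ gam (FreeGroup X) n)

/-- `N` is commensurated in `G`: for every `g` the subgroups `g N g⁻¹` and `N` are commensurable, i.e.
their intersection has finite index in both. -/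
def Commensurated {G : Type} [Group G] (N : Subgroup G) : Prop :=
  ∀ g : G, Subgroup.Commensurable (N.map (MulAut.conj g).toMonoidHom) N

/-- Let `P` be a parafree group and `N` a non-trivial subgroup of infinite index.  If `N` is normal, or
more generally if `N` is commensurated in `P`, then `N` is not finitely generated. -/
theorem result (P : Type) [Group P] (hP : Parafree P) (N : Subgroup P) (hN1 : N ≠ ⊥)
    (hN2 : Infinite (P ⧸ N)) : (N.Normal → ¬ N.FG) ∧ (Commensurated N → ¬ N.FG) := by
  obtain ⟨h1, X, hX⟩ := hP
  have hR : Pool.Agent.R684.PN.ResNil P := by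
    intro x hx
    have : x ∈ ⨅ n, gam P n := Subgroup.mem_iInf.2 hx
    rw [h1] at this
    exact Subgroup.mem_bot.1 this
  have key : Commensurated N → ¬ N.FG := by
    intro hc hfg
    have h2 := Pool.Agent.N399.PN.main (X := X) hX hR N (fun g => (hc g).1) hN1 hfg
    rw [Subgroup.index_ne_zero_iff_finite] at h2
    exact not_finite_iff_infinite.2 hN2 h2
  refine ⟨fun hn => key fun g => ?_, key⟩
  have e : N.map (MulAut.conj g).toMonoidHom = N := by
    ext x
    rw [Subgroup.mem_map]
    constructor
    · rintro ⟨y, hy, rfl⟩
      exact hn.conj_mem y hy g
    · intro hx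
      refine ⟨g⁻¹ * x * g, ?_, ?_⟩
      · have := hn.conj_mem x hx g⁻¹
        rwa [inv_inv] at this
      · change g * (g⁻¹ * x * g) * g⁻¹ = x
        group
  rw [e]

end Pool.Agent.Results.MP_f3dc04_al.FinitelyGeneratedNormal
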