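import Pool.Agent.N431.PK.Fin

/-!
# Subgroups of infinite index in subgroups of parafree groups

Let `P` be a parafree group (no finiteness assumption), let `A ≤ H ≤ P` be subgroups with `[H : A]`
infinite and let `a ≠ 1` be an element of `A` such that every conjugate `h⁻¹ a h`, `h ∈ H`, has a
positive power in `A` (for instance `A` normal in `H` and any `a ≠ 1` in `A`).  Then `A` is not
finitely generated.

Outline of the proof (nonabelian `H`).  Homomorphisms from `P` to finite `p`-groups lift through
surjections of finite `p`-groups, because `P` and the free group have the same lower central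
quotients; by coinduction the same holds for the homomorphisms on a subgroup `K` of `P` that are
continuous for the pro-`p` topology of `P`.  Hence, if `K` is nonabelian, derivations of `K` with
values in `(ℤ/p^k)[G]`, `G` a finite `p`-quotient of `K`, can be prescribed at two elements, and so
can derivations with values in `ℂ[G]`.  If `K` is finitely generated, an approximation argument
(`P` is residually finite-`p` by Magnus' theorem) shows that the `ℓ²` cocycles on `K` that vanish at
`a` have von Neumann dimension at least one.  Such a cocycle is determined by the restrictions to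
`A` of its values at generators of `A`, and comparing dimensions over `K` and over `A` gives
`[K : A] ≤ d(A)` for every finitely generated nonabelian `K` with `A ≤ K ≤ H`.
-/

set_option autoImplicit false

namespace Pool.Agent.Results.MP_f3dc04_al.InfiniteIndex

/-- `gam G n` is the term `γ_{n+1}(G)` of the lower central series of `G`. -/
abbrev gam (G : Type) [Group G] (n : ℕ) : Subgroup G := (⊤ : Subgroup G).lowerCentralSeries n

/-- A group is parafree if it is residually nilpotent and has the same lower central quotients as
some free group. -/
def IsParafree (P : Type) [Group P] : Prop :=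
  (⨅ n : ℕ, gam P n) = ⊥ ∧
    ∃ X : Type, ∀ n : ℕ, Nonempty (P ⧸ gam P n ≃* FreeGroup X ⧸ gam (FreeGroup X) n)

/-- Let `P` be a parafree group, `A ≤ H` subgroups of `P` with `[H : A]` infinite, and suppose that
`A` contains an element `a ≠ 1` such that every conjugate of `a` by an element of `H` has a positive
power in `A`. Then `A` is not finitely generated. -/
theorem result (P : Type) [Group P] (hP : IsParafree P) (A H : Subgroup P) (hAH : A ≤ H)
    (hinf : A.relIndex H = 0)
    (ha : ∃ a ∈ A, a ≠ 1 ∧ ∀ h ∈ H, ∃ k : ℕ, 0 < k ∧ h⁻¹ * a ^ k * h ∈ A) : ¬ A.FG := by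
  intro hfg
  obtain ⟨hres, X, hX⟩ := hP
  obtain ⟨a, haA, ha1, hcom⟩ := ha
  refine Pool.Agent.N431.PK.t_general P X hX (fun x hx => ?_) A H hfg hAH a haA ha1 hcom hinf
  have h1 : x ∈ ⨅ n : ℕ, gam P n := Subgroup.mem_iInf.2 hx
  rw [hres] at h1
  exact Subgroup.mem_bot.1 h1

/-- The posed question: a nontrivial normal subgroup of infinite index of a parafree group is not
finitely generated. -/
theorem normal_case (P : Type) [Group P] (hP : IsParafree P) (N : Subgroup P) (hN : N.Normal)
    (h1 : N ≠ ⊥) (hinf : N.index = 0) : ¬ N.FG := by
  refine result P hP N ⊤ le_top ?_ ?_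
  · rw [Subgroup.relIndex_top_right]; exact hinf
  · obtain ⟨a, ha, ha1⟩ := (Subgroup.bot_or_exists_ne_one N).resolve_left h1
    refine ⟨a, ha, ha1, fun h _ => ⟨1, one_pos, ?_⟩⟩
    have := hN.conj_mem a ha h⁻¹
    rwa [inv_inv, ← pow_one a] at this

end Pool.Agent.Results.MP_f3dc04_al.InfiniteIndex
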